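import Pool.Agent.AFX.Stmts
import Pool.Agent.Helper84_AEC.LNG

/-!
# Squad AFX, row LN2: change of vocabulary, with the maps
-/

open FirstOrder FirstOrder.Language Cardinal Set

universe u

namespace Pool.Agent.AFX.H11

open Pool.Agent.AEC Pool.Agent.AEC.H84

variable {L L0 : FirstOrder.Language.{u, u}} (t : Tr L L0)

/-- an embedding for the new vocabulary -/
def backE {M N : Type u} [iM : L.Structure M] [iN : L.Structure N] (f : M ↪[L] N) :
    @FirstOrder.Language.Embedding L0 M N (back t M) (back t N) :=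
  @FirstOrder.Language.Embedding.mk L0 M N (back t M) (back t N) ⟨f, f.injective⟩
    (fun F x => f.map_fun ((t.f _).symm F) x) (fun R x => f.map_rel ((t.r _).symm R) x)

theorem emb_ex {κ : Cardinal.{u}} (K : AEC L κ) {M N : Type u} (i1 i1' : L.Structure M)
    (i2 i2' : L.Structure N) (h1 : i1 = i1') (h2 : i2 = i2')
    (f : @FirstOrder.Language.Embedding L M N i1 i2) (hf : @AEC.emb L κ K M N i1 i2 f) :
    ∃ g : @FirstOrder.Language.Embedding L M N i1' i2', @AEC.emb L κ K M N i1' i2' g ∧
      (@FirstOrder.Language.Embedding.toEmbedding L M N i1' i2' g).toFun =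
        (@FirstOrder.Language.Embedding.toEmbedding L M N i1 i2 f).toFun := by
  subst h1
  subst h2
  exact ⟨f, hf, rfl⟩

theorem emb_fun {M N : Type u} (i1 : L.Structure M) (i2 : L.Structure N)
    (f g : @FirstOrder.Language.Embedding L M N i1 i2)
    (h : (@FirstOrder.Language.Embedding.toEmbedding L M N i1 i2 f).toFun =
      (@FirstOrder.Language.Embedding.toEmbedding L M N i1 i2 g).toFun) : f = g := by
  apply @FirstOrder.Language.Embedding.ext L M N i1 i2
  intro x
  exact congrFun h x

/-- the renamed structure of a renamed structure -/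
def brQ (M : Type u) [i : L0.Structure M] :
    @FirstOrder.Language.Equiv L0 M (Ren t M) i (back t (Ren t M)) :=
  @FirstOrder.Language.Equiv.mk L0 M (Ren t M) i (back t (Ren t M)) (_root_.Equiv.refl M)
    (fun F x => by
      change @Structure.funMap L0 M _ _ F x = @Structure.funMap L0 M _ _ (t.f _ ((t.f _).symm F)) x
      rw [_root_.Equiv.apply_symm_apply])
    (fun R x => by
      change @Structure.RelMap L0 M _ _ (t.r _ ((t.r _).symm R)) x ↔ @Structure.RelMap L0 M _ _ R x
      rw [_root_.Equiv.apply_symm_apply])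

theorem ln2_core {κ : Cardinal.{u}} (K : AEC L κ) :
    ∃ (Φ : K.Mod → (renK t K).Mod) (v : ∀ A : K.Mod, A.α ≃ (Φ A).α),
    (∀ (A B : K.Mod) (f : K.Hom A B), ∃ g : (renK t K).Hom (Φ A) (Φ B), ∀ x,
      g (v A x) = v B (f x)) ∧
    (∀ (A B : K.Mod) (g : (renK t K).Hom (Φ A) (Φ B)), ∃ f : K.Hom A B, ∀ x,
      g (v A x) = v B (f x)) ∧
    ∀ A0 : (renK t K).Mod, ∃ (A : K.Mod) (f : (renK t K).Hom A0 (Φ A)),
      Function.Surjective f := by
  refine ⟨ofM t K, fun A => _root_.Equiv.refl A.α, ?_, ?_, ?_⟩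
  · intro A B f
    obtain ⟨f', hf', hfe⟩ := emb_ex K A.str (@renStr L L0 t A.α (back t A.α)) B.str
      (@renStr L L0 t B.α (back t B.α)) (ren_back t A.α).symm (ren_back t B.α).symm f.toEmb f.emb
    have h1 : @renE L L0 t A.α B.α (back t A.α) (back t B.α) (backE t f.toEmb) = f' :=
      emb_fun _ _ _ _ hfe.symm
    refine ⟨@AEC.Hom.mk L0 κ (renK t K) (ofM t K A) (ofM t K B)
      (@backE L L0 t A.α B.α A.str B.str f.toEmb) ?_, fun x => rfl⟩
    change @AEC.emb L κ K A.α B.α (@renStr L L0 t A.α (back t A.α))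
      (@renStr L L0 t B.α (back t B.α))
      (@renE L L0 t A.α B.α (back t A.α) (back t B.α) (backE t f.toEmb))
    rw [h1]
    exact hf'
  · intro A B g
    obtain ⟨f', hf', hfe⟩ := emb_ex K (@renStr L L0 t A.α (back t A.α)) A.str
      (@renStr L L0 t B.α (back t B.α)) B.str (ren_back t A.α) (ren_back t B.α)
      (@renE L L0 t A.α B.α (back t A.α) (back t B.α) g.toEmb) g.emb
    exact ⟨⟨f', hf'⟩, fun x => (congrFun hfe x).symm⟩
  · intro A0
    refine ⟨toM t K A0, AEC.Hom.ofEquiv (K := renK t K) (A := A0) (B := ofM t K (toM t K A0))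
      (brQ t A0.α), ?_⟩
    intro x
    exact ⟨x, rfl⟩

/-- LN2 -/
theorem ln2 : Ln2Stmt.{u} := by
  intro L κ K
  have hf : ∀ n, Nonempty (L.Functions n ↪ κ.out) := by
    intro n
    rw [← Cardinal.le_def, Cardinal.mk_out]
    refine le_trans ?_ K.card_le
    unfold Language.card
    exact Cardinal.mk_le_of_injective (f := fun F : L.Functions n =>
      (Sum.inl ⟨n, F⟩ : L.Symbols)) (fun a b h => by
        have h1 := Sum.inl.inj h
        exact eq_of_heq (Sigma.mk.inj h1).2)
  have hr : ∀ n, Nonempty (L.Relations n ↪ κ.out) := by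
    intro n
    rw [← Cardinal.le_def, Cardinal.mk_out]
    refine le_trans ?_ K.card_le
    unfold Language.card
    exact Cardinal.mk_le_of_injective (f := fun F : L.Relations n =>
      (Sum.inr ⟨n, F⟩ : L.Symbols)) (fun a b h => by
        have h1 := Sum.inr.inj h
        exact eq_of_heq (Sigma.mk.inj h1).2)
  have f : ∀ n, L.Functions n ↪ κ.out := fun n => (hf n).some
  have r : ∀ n, L.Relations n ↪ κ.out := fun n => (hr n).some
  let t : Tr L (codeLang (fun n => Set.range (f n)) (fun n => Set.range (r n))) :=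
    ⟨fun n => _root_.Equiv.ofInjective (f n) (f n).injective,
      fun n => _root_.Equiv.ofInjective (r n) (r n).injective⟩
  exact ⟨_, _, renK t K, ln2_core t K⟩

end Pool.Agent.AFX.H11
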